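import Mathlib

namespace Pool.Agent.Results.MP_c0d803_al.IndexedNotContextFree

/-! ## Indexed grammars (Aho 1968), in the form used by Hopcroft and Ullman -/

/-- A production of an indexed grammar with terminals `T`, nonterminals `N` and indices `F`:
`copy A α` is `A → α`, `push A B f` is `A → B f`, and `pop A f α` is `A f → α`,
where `A`, `B` are nonterminals, `f` is an index and `α` is a word in terminals and nonterminals. -/
inductive IndexedRule (T N F : Type) : Type
  | copy (A : N) (α : List (T ⊕ N)) : IndexedRule T N F
  | push (A B : N) (f : F) : IndexedRule T N F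
  | pop (A : N) (f : F) (α : List (T ⊕ N)) : IndexedRule T N F

/-- Attach the string of indices `σ` to every nonterminal of a word. -/
def distribute {T N F : Type} (σ : List F) (α : List (T ⊕ N)) : List (T ⊕ (N × List F)) :=
  α.map (Sum.map id (fun A => (A, σ)))

/-- One rewriting step with the productions in `P`: in a sentential form (a word in terminals and
in nonterminals carrying a string of indices), one nonterminal is rewritten.  `A → α` replaces
`A σ` by `α` with `σ` attached to each nonterminal of `α`; `A → B f` replaces `A σ` by `B f σ`;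
and `A f → α` replaces `A f σ` by `α` with `σ` attached to each nonterminal of `α`. -/
inductive Step {T N F : Type} (P : Set (IndexedRule T N F)) :
    List (T ⊕ (N × List F)) → List (T ⊕ (N × List F)) → Prop
  | copy (A : N) (α : List (T ⊕ N)) (h : IndexedRule.copy A α ∈ P)
      (u v : List (T ⊕ (N × List F))) (σ : List F) :
      Step P (u ++ [Sum.inr (A, σ)] ++ v) (u ++ distribute σ α ++ v)
  | push (A B : N) (f : F) (h : IndexedRule.push A B f ∈ P)
      (u v : List (T ⊕ (N × List F))) (σ : List F) :
      Step P (u ++ [Sum.inr (A, σ)] ++ v) (u ++ [Sum.inr (B, f :: σ)] ++ v)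
  | pop (A : N) (f : F) (α : List (T ⊕ N)) (h : IndexedRule.pop A f α ∈ P)
      (u v : List (T ⊕ (N × List F))) (σ : List F) :
      Step P (u ++ [Sum.inr (A, f :: σ)] ++ v) (u ++ distribute σ α ++ v)

/-- An indexed grammar over the terminal alphabet `T`: finitely many nonterminals, finitely many
indices, a start symbol and finitely many productions. -/
structure IndexedGrammar (T : Type) where
  N : Type
  F : Type
  finN : Finite N
  finF : Finite F
  start : N
  P : Set (IndexedRule T N F)
  finP : P.Finite

/-- The language of an indexed grammar: the words in terminals that can be derived from the start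
symbol with the empty string of indices. -/
def IndexedGrammar.language {T : Type} (g : IndexedGrammar T) : Language T :=
  {w : List T | Relation.ReflTransGen (Step g.P) [Sum.inr (g.start, [])] (w.map Sum.inl)}

/-- Indexed languages. -/
def IsIndexed {T : Type} (L : Language T) : Prop :=
  ∃ g : IndexedGrammar T, g.language = L

/-! ## Groups defined by a language of relators -/

/-- The word `w` over `Δ`, read as an element of the free group on `Δ`. -/
def wordElt {Δ : Type} (w : List Δ) : FreeGroup Δ := (w.map FreeGroup.of).prod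

/-- The elements of the free group on `Δ` given by the words of `L`. -/
def relators {Δ : Type} (L : Language Δ) : Set (FreeGroup Δ) := {x | ∃ w ∈ L, x = wordElt w}

/-- `G` is a nested stack group: `G ≅ ⟨Δ; w = 1 (w ∈ L)⟩` for a finite alphabet `Δ` and an
indexed language `L` over `Δ`. -/
def IsNestedStackGroup (G : Type) [Group G] : Prop :=
  ∃ (Δ : Type) (_ : Finite Δ) (L : Language Δ),
    IsIndexed L ∧ Nonempty (G ≃* PresentedGroup (relators L))

/-- `G` is a context-free group: `G ≅ ⟨Δ; w = 1 (w ∈ L)⟩` for a finite alphabet `Δ` and a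
context-free language `L` over `Δ`. -/
def IsContextFreeGroup (G : Type) [Group G] : Prop :=
  ∃ (Δ : Type) (_ : Finite Δ) (L : Language Δ),
    L.IsContextFree ∧ Nonempty (G ≃* PresentedGroup (relators L))

/-! ## A context-free set of relators gives a finitely presented group -/

section CF

variable {Δ : Type}

theorem wordElt_append (u v : List Δ) : wordElt (u ++ v) = wordElt u * wordElt v := by
  simp [wordElt]

theorem derives_split (g : ContextFreeGrammar Δ) (w : List Δ)
    (δ : List (Symbol Δ g.NT)) (h : g.Derives δ (w.map Symbol.terminal)) :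
    ∀ p q, δ = p ++ q → ∃ w₁ w₂ : List Δ, w = w₁ ++ w₂ ∧
      g.Derives p (w₁.map Symbol.terminal) ∧ g.Derives q (w₂.map Symbol.terminal) := by
  induction h using Relation.ReflTransGen.head_induction_on with
  | refl =>
    intro p q hpq
    rw [List.map_eq_append_iff] at hpq
    obtain ⟨l₁, l₂, h1, h2, h3⟩ := hpq
    refine ⟨l₁, l₂, h1, ?_, ?_⟩
    · rw [h2]
    · rw [h3]
  | head hstep _ ih =>
    rename_i a c
    intro p q hpq
    obtain ⟨r, hr, hrw⟩ := hstep
    rw [ContextFreeRule.rewrites_iff] at hrw
    obtain ⟨x, y, hx, hy⟩ := hrw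
    subst hpq
    rw [List.append_assoc] at hx
    rw [List.append_eq_append_iff] at hx
    rcases hx with ⟨a', ha1, ha2⟩ | ⟨c', hc1, hc2⟩
    · -- the nonterminal lies in q
      obtain ⟨w₁, w₂, hw, h1, h2⟩ := ih p (a' ++ r.output ++ y) (by
        rw [hy, ha1]; simp)
      refine ⟨w₁, w₂, hw, h1, ?_⟩
      refine Relation.ReflTransGen.head ⟨r, hr, ?_⟩ h2
      rw [ContextFreeRule.rewrites_iff]
      exact ⟨a', y, by rw [ha2]; simp, rfl⟩
    · -- the nonterminal lies in p, or c' is empty
      cases c' with
      | nil =>
        simp only [List.append_nil] at hc1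
        simp only [List.nil_append] at hc2
        obtain ⟨w₁, w₂, hw, h1, h2⟩ := ih p (r.output ++ y) (by
          rw [hy, hc1]; simp)
        refine ⟨w₁, w₂, hw, h1, ?_⟩
        refine Relation.ReflTransGen.head ⟨r, hr, ?_⟩ h2
        rw [ContextFreeRule.rewrites_iff]
        exact ⟨[], y, by rw [← hc2]; simp, by simp⟩
      | cons s c'' =>
        simp only [List.cons_append, List.nil_append, List.cons.injEq] at hc2
        obtain ⟨hs, hc2⟩ := hc2
        obtain ⟨w₁, w₂, hw, h1, h2⟩ := ih (x ++ r.output ++ c'') q (by
          rw [hy, hc2]; simp)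
        refine ⟨w₁, w₂, hw, ?_, h2⟩
        refine Relation.ReflTransGen.head ⟨r, hr, ?_⟩ h1
        rw [ContextFreeRule.rewrites_iff]
        exact ⟨x, c'', by rw [hc1, ← hs]; simp, rfl⟩

open Classical in
/-- A chosen terminal word for each symbol. -/
noncomputable def choiceWord (g : ContextFreeGrammar Δ) : Symbol Δ g.NT → List Δ
  | Symbol.terminal a => [a]
  | Symbol.nonterminal A =>
    if h : ∃ w : List Δ, g.Derives [Symbol.nonterminal A] (w.map Symbol.terminal)
      then h.choose else []

noncomputable def choiceVal (g : ContextFreeGrammar Δ) (δ : List (Symbol Δ g.NT)) : List Δ :=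
  δ.flatMap (choiceWord g)

theorem choiceWord_spec (g : ContextFreeGrammar Δ) (s : Symbol Δ g.NT) (w : List Δ)
    (h : g.Derives [s] (w.map Symbol.terminal)) :
    g.Derives [s] ((choiceWord g s).map Symbol.terminal) := by
  cases s with
  | terminal a => exact Relation.ReflTransGen.refl
  | nonterminal A =>
    have h' : ∃ w : List Δ, g.Derives [Symbol.nonterminal A] (w.map Symbol.terminal) := ⟨w, h⟩
    simp only [choiceWord, h', dif_pos]
    exact h'.choose_spec

theorem choiceVal_spec (g : ContextFreeGrammar Δ) (δ : List (Symbol Δ g.NT)) :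
    ∀ (w : List Δ), g.Derives δ (w.map Symbol.terminal) →
    g.Derives δ ((choiceVal g δ).map Symbol.terminal) := by
  induction δ with
  | nil => intro w h; exact Relation.ReflTransGen.refl
  | cons s δ ih =>
    intro w h
    obtain ⟨w₁, w₂, hw, h1, h2⟩ := derives_split g w (s :: δ) h [s] δ rfl
    have e1 := choiceWord_spec g s w₁ h1
    have e2 := ih w₂ h2
    have e3 : g.Derives ([s] ++ δ) ([s] ++ (choiceVal g δ).map Symbol.terminal) :=
      e2.append_left _
    have e4 : g.Derives ([s] ++ (choiceVal g δ).map Symbol.terminal)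
        ((choiceWord g s).map Symbol.terminal ++ (choiceVal g δ).map Symbol.terminal) :=
      e1.append_right _
    have := e3.trans e4
    simpa [choiceVal] using this

/-- The relator attached to a rule. -/
noncomputable def ruleRel (g : ContextFreeGrammar Δ) (r : ContextFreeRule Δ g.NT) :
    FreeGroup Δ :=
  (wordElt (choiceWord g (Symbol.nonterminal r.input)))⁻¹ * wordElt (choiceVal g r.output)

/-- The finite set of relators extracted from a context-free grammar. -/
noncomputable def finRel (g : ContextFreeGrammar Δ) : Set (FreeGroup Δ) :=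
  {x | x ∈ Subgroup.normalClosure (relators g.language) ∧
    (x = wordElt (choiceWord g (Symbol.nonterminal g.initial)) ∨
      ∃ r ∈ g.rules, x = ruleRel g r)}

theorem finRel_finite (g : ContextFreeGrammar Δ) : (finRel g).Finite := by
  have : finRel g ⊆ {wordElt (choiceWord g (Symbol.nonterminal g.initial))} ∪
      (ruleRel g) '' (g.rules : Set _) := by
    rintro x ⟨-, h | ⟨r, hr, h⟩⟩
    · left; exact h
    · right; exact ⟨r, hr, h.symm⟩
  exact Set.Finite.subset ((Set.finite_singleton _).union ((g.rules.finite_toSet).image _)) this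

/-- `x ≡ y` modulo a normal subgroup. -/
theorem wordElt_mem_of_language (g : ContextFreeGrammar Δ) (w : List Δ) (hw : w ∈ g.language) :
    wordElt w ∈ Subgroup.normalClosure (relators g.language) :=
  Subgroup.subset_normalClosure ⟨w, hw, rfl⟩

theorem choice_init_mem (g : ContextFreeGrammar Δ) (w : List Δ) (hw : w ∈ g.language) :
    wordElt (choiceWord g (Symbol.nonterminal g.initial)) ∈
      Subgroup.normalClosure (relators g.language) := by
  apply wordElt_mem_of_language
  exact choiceWord_spec g _ w hw

theorem ruleRel_mem (g : ContextFreeGrammar Δ) (r : ContextFreeRule Δ g.NT) (hr : r ∈ g.rules)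
    (p q : List (Symbol Δ g.NT)) (w : List Δ)
    (h1 : g.Derives [Symbol.nonterminal g.initial] (p ++ [Symbol.nonterminal r.input] ++ q))
    (h2 : g.Derives (p ++ r.output ++ q) (w.map Symbol.terminal)) :
    ruleRel g r ∈ Subgroup.normalClosure (relators g.language) := by
  obtain ⟨w₁, w₂, hw, ha, hq⟩ := derives_split g w _ h2 (p ++ r.output) q rfl
  obtain ⟨w₃, w₄, hw', hp, ho⟩ := derives_split g w₁ _ ha p r.output rfl
  have hstep : g.Produces [Symbol.nonterminal r.input] r.output :=
    ⟨r, hr, ContextFreeRule.Rewrites.input_output⟩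
  have hA : g.Derives [Symbol.nonterminal r.input] (w₄.map Symbol.terminal) :=
    Relation.ReflTransGen.head hstep ho
  have hA' := choiceWord_spec g _ _ hA
  have ho' := choiceVal_spec g _ _ ho
  -- general context lemma
  have ctx : ∀ z : List Δ, g.Derives [Symbol.nonterminal r.input] (z.map Symbol.terminal) →
      w₃ ++ z ++ w₂ ∈ g.language := by
    intro z hz
    have e1 : g.Derives (p ++ [Symbol.nonterminal r.input] ++ q)
        (w₃.map Symbol.terminal ++ [Symbol.nonterminal r.input] ++ q) :=
      (hp.append_right _).append_right _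
    have e2 : g.Derives (w₃.map Symbol.terminal ++ [Symbol.nonterminal r.input] ++ q)
        (w₃.map Symbol.terminal ++ z.map Symbol.terminal ++ q) :=
      (hz.append_left _).append_right _
    have e3 : g.Derives (w₃.map Symbol.terminal ++ z.map Symbol.terminal ++ q)
        (w₃.map Symbol.terminal ++ z.map Symbol.terminal ++ w₂.map Symbol.terminal) :=
      hq.append_left _
    have := ((h1.trans e1).trans e2).trans e3
    change g.Derives [Symbol.nonterminal g.initial] _
    simpa using this
  have c1 := wordElt_mem_of_language g _ (ctx _ hA')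
  have c2 := wordElt_mem_of_language g _ (ctx _ (Relation.ReflTransGen.head hstep ho'))
  rw [wordElt_append, wordElt_append] at c1 c2
  set N := Subgroup.normalClosure (relators g.language) with hN
  set a := wordElt w₃
  set b := wordElt w₂
  set x := wordElt (choiceWord g (Symbol.nonterminal r.input))
  set y := wordElt (choiceVal g r.output)
  have c3 : (a * x * b)⁻¹ * (a * y * b) ∈ N := N.mul_mem (N.inv_mem c1) c2
  have hnormal : N.Normal := Subgroup.normalClosure_normal
  have c4 := hnormal.conj_mem _ c3 b
  have : b * ((a * x * b)⁻¹ * (a * y * b)) * b⁻¹ = x⁻¹ * y := by group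
  rw [this] at c4
  exact c4

/-- All words of the language are consequences of the finite set. -/
theorem language_le (g : ContextFreeGrammar Δ) (w : List Δ) (hw : w ∈ g.language) :
    wordElt w ∈ Subgroup.normalClosure (finRel g) := by
  set N := Subgroup.normalClosure (finRel g) with hN
  have hnormal : N.Normal := Subgroup.normalClosure_normal
  -- forward induction along the derivation
  have key : ∀ δ, g.Derives [Symbol.nonterminal g.initial] δ →
      g.Derives δ (w.map Symbol.terminal) → wordElt (choiceVal g δ) ∈ N := by
    intro δ hδ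
    induction hδ with
    | refl =>
      intro _
      have : choiceVal g [Symbol.nonterminal g.initial]
          = choiceWord g (Symbol.nonterminal g.initial) := by simp [choiceVal]
      rw [this]
      exact Subgroup.subset_normalClosure ⟨choice_init_mem g w hw, Or.inl rfl⟩
    | tail hab hbc ih =>
      rename_i b c
      intro hc
      have hb := ih (Relation.ReflTransGen.head hbc hc)
      obtain ⟨r, hr, hrw⟩ := hbc
      rw [ContextFreeRule.rewrites_iff] at hrw
      obtain ⟨x, y, hx, hy⟩ := hrw
      subst hx hy
      have hrel : ruleRel g r ∈ N := by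
        apply Subgroup.subset_normalClosure
        exact ⟨ruleRel_mem g r hr x y w hab hc, Or.inr ⟨r, hr, rfl⟩⟩
      have e1 : choiceVal g (x ++ [Symbol.nonterminal r.input] ++ y)
          = choiceVal g x ++ choiceWord g (Symbol.nonterminal r.input) ++ choiceVal g y := by
        simp [choiceVal]
      have e2 : choiceVal g (x ++ r.output ++ y)
          = choiceVal g x ++ choiceVal g r.output ++ choiceVal g y := by
        simp [choiceVal]
      rw [e1, wordElt_append, wordElt_append] at hb
      rw [e2, wordElt_append, wordElt_append]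
      unfold ruleRel at hrel
      set a := wordElt (choiceVal g x)
      set b' := wordElt (choiceVal g y)
      set s := wordElt (choiceWord g (Symbol.nonterminal r.input))
      set t := wordElt (choiceVal g r.output)
      have h1 := hnormal.conj_mem _ hrel b'⁻¹
      have h2 := N.mul_mem hb h1
      have : a * s * b' * (b'⁻¹ * (s⁻¹ * t) * b'⁻¹⁻¹) = a * t * b' := by group
      rwa [this] at h2
  have hfin := key (w.map Symbol.terminal) hw Relation.ReflTransGen.refl
  have : choiceVal g (w.map Symbol.terminal) = w := by
    simp only [choiceVal, List.flatMap_map]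
    induction w with
    | nil => rfl
    | cons a w _ =>
      simp [choiceWord]
  rwa [this] at hfin

theorem normalClosure_finRel (g : ContextFreeGrammar Δ) :
    Subgroup.normalClosure (finRel g) = Subgroup.normalClosure (relators g.language) := by
  apply le_antisymm
  · apply Subgroup.normalClosure_le_normal
    intro x hx
    exact hx.1
  · apply Subgroup.normalClosure_le_normal
    rintro x ⟨w, hw, rfl⟩
    exact language_le g w hw

theorem finitelyPresented_of_contextFree [Finite Δ] (L : Language Δ) (hL : L.IsContextFree) :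
    Group.IsFinitelyPresented (PresentedGroup (relators L)) := by
  obtain ⟨g, rfl⟩ := hL
  have hfin : Finite (finRel g) := (finRel_finite g).to_subtype
  have h1 : Group.IsFinitelyPresented (PresentedGroup (finRel g)) := inferInstance
  refine Group.IsFinitelyPresented.equiv (G := PresentedGroup (finRel g)) ?_
  exact QuotientGroup.quotientMulEquivOfEq (normalClosure_finRel g)

end CF

/-! ## In a finitely presented group finitely many of the given relators suffice -/

section Compactness

theorem mem_normalClosure_finite {G : Type} [Group G] (R : Set G) (x : G)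
    (hx : x ∈ Subgroup.normalClosure R) :
    ∃ R₀ ⊆ R, R₀.Finite ∧ x ∈ Subgroup.normalClosure R₀ := by
  unfold Subgroup.normalClosure at hx
  induction hx using Subgroup.closure_induction with
  | mem x hx =>
    rw [Group.mem_conjugatesOfSet_iff] at hx
    obtain ⟨a, ha, hax⟩ := hx
    refine ⟨{a}, by simpa using ha, Set.finite_singleton _, ?_⟩
    exact Subgroup.conjugatesOfSet_subset_normalClosure
      (Group.mem_conjugatesOfSet_iff.mpr ⟨a, rfl, hax⟩)
  | one => exact ⟨∅, by simp, Set.finite_empty, Subgroup.one_mem _⟩
  | mul x y _ _ ihx ihy =>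
    obtain ⟨R₁, h1, h1f, h1x⟩ := ihx
    obtain ⟨R₂, h2, h2f, h2x⟩ := ihy
    refine ⟨R₁ ∪ R₂, Set.union_subset h1 h2, h1f.union h2f, Subgroup.mul_mem _ ?_ ?_⟩
    · exact Subgroup.normalClosure_mono Set.subset_union_left h1x
    · exact Subgroup.normalClosure_mono Set.subset_union_right h2x
  | inv x _ ih =>
    obtain ⟨R₁, h1, h1f, h1x⟩ := ih
    exact ⟨R₁, h1, h1f, Subgroup.inv_mem _ h1x⟩

theorem finite_set_normalClosure {G : Type} [Group G] (R T : Set G) (hT : T.Finite)
    (h : T ⊆ Subgroup.normalClosure R) :
    ∃ R₀ ⊆ R, R₀.Finite ∧ T ⊆ Subgroup.normalClosure R₀ := by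
  induction T, hT using Set.Finite.induction_on with
  | empty => exact ⟨∅, by simp, Set.finite_empty, by simp⟩
  | insert _ _ ih =>
    rename_i a s _ _
    obtain ⟨R₁, h1, h1f, h1x⟩ := ih (fun x hx => h (Set.mem_insert_of_mem _ hx))
    obtain ⟨R₂, h2, h2f, h2x⟩ := mem_normalClosure_finite R a (h (Set.mem_insert _ _))
    refine ⟨R₁ ∪ R₂, Set.union_subset h1 h2, h1f.union h2f, ?_⟩
    intro x hx
    rcases Set.mem_insert_iff.mp hx with rfl | hx
    · exact Subgroup.normalClosure_mono Set.subset_union_right h2x
    · exact Subgroup.normalClosure_mono Set.subset_union_left (h1x hx)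

/-- If `⟨Δ | R⟩` is finitely presented, then finitely many elements of `R` suffice. -/
theorem finitely_many_suffice {Δ : Type} [Finite Δ] (R : Set (FreeGroup Δ))
    (h : Group.IsFinitelyPresented (PresentedGroup R)) :
    ∃ R₀ ⊆ R, R₀.Finite ∧ Subgroup.normalClosure R₀ = Subgroup.normalClosure R := by
  obtain ⟨n, φ, hφ, S, hS, hker⟩ := h.out
  let π : FreeGroup Δ →* PresentedGroup R := PresentedGroup.mk R
  have hπ : Function.Surjective π := PresentedGroup.mk_surjective R
  -- lifts
  let α : FreeGroup (Fin n) →* FreeGroup Δ :=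
    FreeGroup.lift (fun i => (hπ (φ (FreeGroup.of i))).choose)
  let β : FreeGroup Δ →* FreeGroup (Fin n) :=
    FreeGroup.lift (fun i => (hφ (π (FreeGroup.of i))).choose)
  have hα : π.comp α = φ := by
    ext i
    simp only [α, MonoidHom.comp_apply, FreeGroup.lift_apply_of]
    exact (hπ (φ (FreeGroup.of i))).choose_spec
  have hβ : φ.comp β = π := by
    ext i
    simp only [β, MonoidHom.comp_apply, FreeGroup.lift_apply_of]
    exact (hφ (π (FreeGroup.of i))).choose_spec
  let T : Set (FreeGroup Δ) := α '' S ∪ Set.range (fun i : Δ =>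
    (FreeGroup.of i)⁻¹ * α (β (FreeGroup.of i)))
  have hTfin : T.Finite := (hS.image _).union (Set.finite_range _)
  have hmem : ∀ x : FreeGroup Δ, x ∈ Subgroup.normalClosure R ↔ π x = 1 := by
    intro x
    exact (PresentedGroup.mk_eq_one_iff).symm
  have hTR : T ⊆ Subgroup.normalClosure R := by
    rintro x (⟨s, hs, rfl⟩ | ⟨i, rfl⟩)
    · change α s ∈ Subgroup.normalClosure R
      rw [hmem]
      have : π (α s) = φ s := by rw [← hα]; rfl
      rw [this]
      have : s ∈ φ.ker := by rw [← hker]; exact Subgroup.subset_normalClosure hs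
      exact this
    · change (FreeGroup.of i)⁻¹ * α (β (FreeGroup.of i)) ∈ Subgroup.normalClosure R
      rw [hmem, map_mul, map_inv]
      have h1 : ∀ y, π (α y) = φ y := fun y => by rw [← hα]; rfl
      have h2 : ∀ y, φ (β y) = π y := fun y => by
        conv_rhs => rw [← hβ]
        rfl
      rw [h1, h2, inv_mul_cancel]
  have hRT : Subgroup.normalClosure R ≤ Subgroup.normalClosure T := by
    intro w hw
    have hw1 : π w = 1 := (hmem w).mp hw
    have h2 : φ (β w) = 1 := by
      have : φ (β w) = π w := by
        conv_rhs => rw [← hβ]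
        rfl
      rw [this, hw1]
    have h3 : β w ∈ Subgroup.normalClosure S := by rw [hker]; exact h2
    have h4 : α (β w) ∈ Subgroup.normalClosure T := by
      have : (Subgroup.normalClosure S).map α ≤ Subgroup.normalClosure (α '' S) :=
        Subgroup.map_normalClosure_le S α
      exact Subgroup.normalClosure_mono Set.subset_union_left (this ⟨_, h3, rfl⟩)
    -- w ≡ α (β w) modulo the normal closure of T
    have h5 : (QuotientGroup.mk' (Subgroup.normalClosure T)) =
        (QuotientGroup.mk' (Subgroup.normalClosure T)).comp (α.comp β) := by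
      ext i
      simp only [MonoidHom.comp_apply, QuotientGroup.mk'_apply]
      rw [QuotientGroup.eq]
      exact Subgroup.subset_normalClosure (Or.inr ⟨i, rfl⟩)
    have h6 : (QuotientGroup.mk' (Subgroup.normalClosure T)) w =
        (QuotientGroup.mk' (Subgroup.normalClosure T)) (α (β w)) := by
      conv_lhs => rw [h5]
      rfl
    rw [QuotientGroup.mk'_apply, QuotientGroup.mk'_apply, QuotientGroup.eq] at h6
    have h7 := Subgroup.mul_mem _ h4 (Subgroup.inv_mem _ h6)
    have : α (β w) * (w⁻¹ * α (β w))⁻¹ = w := by group
    rwa [this] at h7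
  obtain ⟨R₀, h0, h0f, h0T⟩ := finite_set_normalClosure R T hTfin hTR
  refine ⟨R₀, h0, h0f, le_antisymm (Subgroup.normalClosure_mono h0) ?_⟩
  exact hRT.trans (Subgroup.normalClosure_le_normal h0T)

end Compactness

/-! ## The lamplighter group and its indexed set of relators -/

/-- The alphabet: `a`, `t` and a letter `T` for the inverse of `t`. -/
inductive Letter : Type
  | a | t | T

open Letter

/-- The word `a tⁿ a Tⁿ a tⁿ a Tⁿ`. -/
def lampWord (n : ℕ) : List Letter :=
  [a] ++ List.replicate n t ++ [a] ++ List.replicate n T ++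
    [a] ++ List.replicate n t ++ [a] ++ List.replicate n T

/-- The relators of the lamplighter group: `aa`, `tT` and all words `a tⁿ a Tⁿ a tⁿ a Tⁿ`. -/
def lampLanguage : Language Letter :=
  {w | w = [a, a] ∨ w = [t, T] ∨ ∃ n, w = lampWord n}

/-- Nonterminals of the grammar. -/
inductive NTs : Type
  | S | P | W | X | Y

/-- Indices of the grammar: `f` and the bottom marker `e`. -/
inductive Ix : Type
  | f | e

/-- The productions of the grammar. -/
def lampRules : Set (IndexedRule Letter NTs Ix) :=
  {IndexedRule.copy NTs.S [Sum.inl a, Sum.inl a],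
   IndexedRule.copy NTs.S [Sum.inl t, Sum.inl T],
   IndexedRule.push NTs.S NTs.P Ix.e,
   IndexedRule.push NTs.P NTs.P Ix.f,
   IndexedRule.copy NTs.P [Sum.inr NTs.W],
   IndexedRule.copy NTs.W [Sum.inl a, Sum.inr NTs.X, Sum.inl a, Sum.inr NTs.Y,
      Sum.inl a, Sum.inr NTs.X, Sum.inl a, Sum.inr NTs.Y],
   IndexedRule.pop NTs.X Ix.f [Sum.inl t, Sum.inr NTs.X],
   IndexedRule.pop NTs.X Ix.e [],
   IndexedRule.pop NTs.Y Ix.f [Sum.inl T, Sum.inr NTs.Y],
   IndexedRule.pop NTs.Y Ix.e []}

theorem finite_Letter : Finite Letter :=
  Finite.of_surjective (fun i : Fin 3 => if i = 0 then Letter.a else if i = 1 then Letter.t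
    else Letter.T) (by
      intro x
      cases x
      · exact ⟨0, by simp⟩
      · exact ⟨1, by simp⟩
      · exact ⟨2, by simp⟩)

theorem finite_NTs : Finite NTs :=
  Finite.of_surjective (fun i : Fin 5 => if i = 0 then NTs.S else if i = 1 then NTs.P
    else if i = 2 then NTs.W else if i = 3 then NTs.X else NTs.Y) (by
      intro x
      cases x
      · exact ⟨0, by simp⟩
      · exact ⟨1, by simp⟩
      · exact ⟨2, by simp⟩
      · exact ⟨3, by simp⟩
      · exact ⟨4, by simp⟩)

theorem finite_Ix : Finite Ix :=
  Finite.of_surjective (fun i : Fin 2 => if i = 0 then Ix.f else Ix.e) (by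
      intro x
      cases x
      · exact ⟨0, by simp⟩
      · exact ⟨1, by simp⟩)

def lampGrammar : IndexedGrammar Letter where
  N := NTs
  F := Ix
  finN := finite_NTs
  finF := finite_Ix
  start := NTs.S
  P := lampRules
  finP := by
    unfold lampRules
    exact Set.toFinite _

/-- The number of indices `f` above the first bottom marker. -/
def cnt : List Ix → ℕ
  | [] => 0
  | Ix.f :: σ => cnt σ + 1
  | Ix.e :: _ => 0

/-- The words that a symbol can produce. -/
def sem : Letter ⊕ (NTs × List Ix) → Language Letter
  | Sum.inl c => {[c]}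
  | Sum.inr (NTs.S, _) => lampLanguage
  | Sum.inr (NTs.P, _) => {w | ∃ n, w = lampWord n}
  | Sum.inr (NTs.W, σ) => {lampWord (cnt σ)}
  | Sum.inr (NTs.X, σ) => {List.replicate (cnt σ) t}
  | Sum.inr (NTs.Y, σ) => {List.replicate (cnt σ) T}

def semForm (δ : List (Letter ⊕ (NTs × List Ix))) : Language Letter := (δ.map sem).prod

theorem semForm_append (u v : List (Letter ⊕ (NTs × List Ix))) :
    semForm (u ++ v) = semForm u * semForm v := by
  simp [semForm]

theorem singleton_mul_singleton (u v : List Letter) :
    ({u} : Language Letter) * {v} = {u ++ v} := by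
  ext w
  simp only [Language.mem_mul]
  constructor
  · rintro ⟨x, hx, y, hy, rfl⟩
    cases hx; cases hy; rfl
  · intro h
    cases h
    exact ⟨u, rfl, v, rfl, rfl⟩

theorem semForm_terminal (w : List Letter) : semForm (w.map Sum.inl) = {w} := by
  induction w with
  | nil => rfl
  | cons c w ih =>
    have : semForm (List.map Sum.inl (c :: w)) = sem (Sum.inl c) * semForm (w.map Sum.inl) := by
      simp [semForm]
    rw [this, ih]
    exact singleton_mul_singleton [c] w

theorem semForm_step (δ δ' : List (Letter ⊕ (NTs × List Ix))) (h : (Step lampRules) δ δ') :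
    semForm δ' ≤ semForm δ := by
  have key : ∀ (u v m m' : List (Letter ⊕ (NTs × List Ix))), semForm m' ≤ semForm m →
      semForm (u ++ m' ++ v) ≤ semForm (u ++ m ++ v) := by
    intro u v m m' hm
    rw [semForm_append, semForm_append, semForm_append, semForm_append]
    exact mul_le_mul' (mul_le_mul' le_rfl hm) le_rfl
  cases h with
  | copy A α h u v σ =>
    apply key
    simp only [lampRules, Set.mem_insert_iff, Set.mem_singleton_iff, IndexedRule.copy.injEq,
      reduceCtorEq, or_false, false_or] at h
    rcases h with ⟨rfl, rfl⟩ | ⟨rfl, rfl⟩ | ⟨rfl, rfl⟩ | ⟨rfl, rfl⟩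
    · intro w hw
      have : semForm (distribute σ [Sum.inl a, Sum.inl a]) = {[a, a]} :=
        semForm_terminal [a, a]
      rw [this] at hw
      cases hw
      change _ ∈ semForm [Sum.inr (NTs.S, σ)]
      simp only [semForm, List.map_cons, List.map_nil, List.prod_cons, List.prod_nil, mul_one]
      exact Or.inl rfl
    · intro w hw
      have : semForm (distribute σ [Sum.inl t, Sum.inl T]) = {[t, T]} :=
        semForm_terminal [t, T]
      rw [this] at hw
      cases hw
      simp only [semForm, List.map_cons, List.map_nil, List.prod_cons, List.prod_nil, mul_one]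
      exact Or.inr (Or.inl rfl)
    · intro w hw
      simp only [semForm, distribute, List.map_cons, List.map_nil, List.prod_cons, List.prod_nil,
        mul_one, Sum.map_inr] at hw ⊢
      cases hw
      exact ⟨cnt σ, rfl⟩
    · intro w hw
      simp only [semForm, distribute, List.map_cons, List.map_nil, List.prod_cons, List.prod_nil,
        mul_one, Sum.map_inr, Sum.map_inl, id] at hw ⊢
      simp only [sem, singleton_mul_singleton] at hw ⊢
      cases hw
      change _ = _
      simp [lampWord]
  | push A B g h u v σ =>
    apply key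
    simp only [lampRules, Set.mem_insert_iff, Set.mem_singleton_iff, IndexedRule.push.injEq,
      reduceCtorEq, or_false, false_or] at h
    rcases h with ⟨rfl, rfl, rfl⟩ | ⟨rfl, rfl, rfl⟩
    · intro w hw
      simp only [semForm, List.map_cons, List.map_nil, List.prod_cons, List.prod_nil,
        mul_one] at hw ⊢
      exact Or.inr (Or.inr hw)
    · intro w hw
      simp only [semForm, List.map_cons, List.map_nil, List.prod_cons, List.prod_nil,
        mul_one] at hw ⊢
      exact hw
  | pop A g α h u v σ =>
    apply key
    simp only [lampRules, Set.mem_insert_iff, Set.mem_singleton_iff, IndexedRule.pop.injEq,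
      reduceCtorEq, false_or] at h
    rcases h with ⟨rfl, rfl, rfl⟩ | ⟨rfl, rfl, rfl⟩ | ⟨rfl, rfl, rfl⟩ | ⟨rfl, rfl, rfl⟩
    · intro w hw
      simp only [semForm, distribute, List.map_cons, List.map_nil, List.prod_cons, List.prod_nil,
        mul_one, Sum.map_inr, Sum.map_inl, id] at hw ⊢
      simp only [sem, singleton_mul_singleton] at hw ⊢
      cases hw
      change _ = _
      simp [cnt, List.replicate_succ]
    · intro w hw
      simp only [semForm, distribute, List.map_cons, List.map_nil, List.prod_cons, List.prod_nil,
        mul_one] at hw ⊢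
      cases hw
      rfl
    · intro w hw
      simp only [semForm, distribute, List.map_cons, List.map_nil, List.prod_cons, List.prod_nil,
        mul_one, Sum.map_inr, Sum.map_inl, id] at hw ⊢
      simp only [sem, singleton_mul_singleton] at hw ⊢
      cases hw
      change _ = _
      simp [cnt, List.replicate_succ]
    · intro w hw
      simp only [semForm, distribute, List.map_cons, List.map_nil, List.prod_cons, List.prod_nil,
        mul_one] at hw ⊢
      cases hw
      rfl

theorem language_sub : lampGrammar.language ≤ lampLanguage := by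
  intro w hw
  have hw' : Relation.ReflTransGen (Step lampRules) [Sum.inr (NTs.S, [])] (w.map Sum.inl) := hw
  have : semForm (w.map Sum.inl) ≤ semForm [Sum.inr (NTs.S, [])] := by
    generalize hδ : (w.map Sum.inl : List (Letter ⊕ (NTs × List Ix))) = δ at hw'
    clear hδ
    induction hw' with
    | refl => exact le_rfl
    | tail _ h ih => exact (semForm_step _ _ h).trans ih
  rw [semForm_terminal] at this
  have h2 := this (Set.mem_singleton w)
  simpa [semForm, sem] using h2

theorem derives_context {δ δ' : List (Letter ⊕ (NTs × List Ix))}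
    (h : Relation.ReflTransGen (Step lampRules) δ δ') (p q : List (Letter ⊕ (NTs × List Ix))) :
    Relation.ReflTransGen (Step lampRules) (p ++ δ ++ q) (p ++ δ' ++ q) := by
  induction h with
  | refl => exact Relation.ReflTransGen.refl
  | tail _ h ih =>
    refine ih.tail ?_
    cases h with
    | copy A α h u v σ =>
      have := Step.copy (P := lampRules) A α h (p ++ u) (v ++ q) σ
      simpa [List.append_assoc] using this
    | push A B g h u v σ =>
      have := Step.push (P := lampRules) A B g h (p ++ u) (v ++ q) σ
      simpa [List.append_assoc] using this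
    | pop A g α h u v σ =>
      have := Step.pop (P := lampRules) A g α h (p ++ u) (v ++ q) σ
      simpa [List.append_assoc] using this

/-- The string of indices `fⁿ e`. -/
def stk (n : ℕ) : List Ix := List.replicate n Ix.f ++ [Ix.e]

theorem stk_succ (n : ℕ) : stk (n + 1) = Ix.f :: stk n := by
  simp [stk, List.replicate_succ]

theorem derives_X (n : ℕ) : Relation.ReflTransGen (Step lampRules) [Sum.inr (NTs.X, stk n)]
    ((List.replicate n t).map Sum.inl) := by
  induction n with
  | zero =>
    refine Relation.ReflTransGen.single ?_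
    exact Step.pop (P := lampRules) NTs.X Ix.e []
      (by simp [lampRules]) [] [] []
  | succ n ih =>
    rw [stk_succ]
    have h1 := Step.pop (P := lampRules) NTs.X Ix.f [Sum.inl t, Sum.inr NTs.X]
      (by simp [lampRules]) [] [] (stk n)
    refine Relation.ReflTransGen.head h1 ?_
    have h2 := derives_context ih [Sum.inl t] []
    simpa [distribute, List.replicate_succ] using h2

theorem derives_Y (n : ℕ) : Relation.ReflTransGen (Step lampRules) [Sum.inr (NTs.Y, stk n)]
    ((List.replicate n T).map Sum.inl) := by
  induction n with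
  | zero =>
    refine Relation.ReflTransGen.single ?_
    exact Step.pop (P := lampRules) NTs.Y Ix.e []
      (by simp [lampRules]) [] [] []
  | succ n ih =>
    rw [stk_succ]
    have h1 := Step.pop (P := lampRules) NTs.Y Ix.f [Sum.inl T, Sum.inr NTs.Y]
      (by simp [lampRules]) [] [] (stk n)
    refine Relation.ReflTransGen.head h1 ?_
    have h2 := derives_context ih [Sum.inl T] []
    simpa [distribute, List.replicate_succ] using h2

theorem derives_P (n : ℕ) : Relation.ReflTransGen (Step lampRules) [Sum.inr (NTs.S, [])]
    [Sum.inr (NTs.P, stk n)] := by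
  induction n with
  | zero =>
    refine Relation.ReflTransGen.single ?_
    exact Step.push (P := lampRules) NTs.S NTs.P Ix.e
      (by simp [lampRules]) [] [] []
  | succ n ih =>
    rw [stk_succ]
    refine ih.tail ?_
    exact Step.push (P := lampRules) NTs.P NTs.P Ix.f
      (by simp [lampRules]) [] [] (stk n)

theorem derives_lampWord (n : ℕ) : Relation.ReflTransGen (Step lampRules)
    [Sum.inr (NTs.S, [])] ((lampWord n).map Sum.inl) := by
  refine (derives_P n).trans ?_
  have h1 := Step.copy (P := lampRules) NTs.P [Sum.inr NTs.W]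
    (by simp [lampRules]) [] [] (stk n)
  refine Relation.ReflTransGen.head h1 ?_
  have h2 := Step.copy (P := lampRules) NTs.W
    [Sum.inl a, Sum.inr NTs.X, Sum.inl a, Sum.inr NTs.Y,
      Sum.inl a, Sum.inr NTs.X, Sum.inl a, Sum.inr NTs.Y]
    (by simp [lampRules]) [] [] (stk n)
  refine Relation.ReflTransGen.head h2 ?_
  have hX := derives_X n
  have hY := derives_Y n
  have d1 := derives_context hX [Sum.inl a]
    [Sum.inl a, Sum.inr (NTs.Y, stk n), Sum.inl a, Sum.inr (NTs.X, stk n), Sum.inl a,
      Sum.inr (NTs.Y, stk n)]
  have d2 := derives_context hY ([Sum.inl a] ++ (List.replicate n t).map Sum.inl ++ [Sum.inl a])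
    [Sum.inl a, Sum.inr (NTs.X, stk n), Sum.inl a, Sum.inr (NTs.Y, stk n)]
  have d3 := derives_context hX ([Sum.inl a] ++ (List.replicate n t).map Sum.inl ++ [Sum.inl a] ++
      (List.replicate n T).map Sum.inl ++ [Sum.inl a])
    [Sum.inl a, Sum.inr (NTs.Y, stk n)]
  have d4 := derives_context hY ([Sum.inl a] ++ (List.replicate n t).map Sum.inl ++ [Sum.inl a] ++
      (List.replicate n T).map Sum.inl ++ [Sum.inl a] ++ (List.replicate n t).map Sum.inl ++
      [Sum.inl a]) []
  simp only [List.append_assoc, List.cons_append, List.nil_append, List.append_nil] at d1 d2 d3 d4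
  have := ((d1.trans d2).trans d3).trans d4
  simpa [distribute, lampWord] using this

theorem lamp_isIndexed : IsIndexed lampLanguage := by
  refine ⟨lampGrammar, le_antisymm language_sub ?_⟩
  intro w hw
  rcases hw with rfl | rfl | ⟨n, rfl⟩
  · change Relation.ReflTransGen (Step lampRules) [Sum.inr (NTs.S, [])] _
    exact Relation.ReflTransGen.single (Step.copy (P := lampRules) NTs.S
      [Sum.inl a, Sum.inl a] (by simp [lampRules]) [] [] [])
  · change Relation.ReflTransGen (Step lampRules) [Sum.inr (NTs.S, [])] _
    exact Relation.ReflTransGen.single (Step.copy (P := lampRules) NTs.S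
      [Sum.inl t, Sum.inl T] (by simp [lampRules]) [] [] [])
  · exact derives_lampWord n

/-! ## The lamplighter group is not finitely presented -/

/-- The test homomorphism into the permutations of `ℤ`. -/
def testHom (k : ℕ) : FreeGroup Letter →* Equiv.Perm ℤ :=
  FreeGroup.lift (fun c => match c with
    | a => Equiv.swap 0 ((k : ℤ) + 1)
    | t => Equiv.addRight 1
    | T => (Equiv.addRight 1)⁻¹)

theorem wordElt_replicate (c : Letter) (n : ℕ) :
    wordElt (List.replicate n c) = (FreeGroup.of c) ^ n := by
  simp [wordElt]

theorem testHom_lampWord (k n : ℕ) :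
    testHom k (wordElt (lampWord n)) =
      (Equiv.swap 0 ((k : ℤ) + 1) * Equiv.swap (n : ℤ) ((n : ℤ) + k + 1)) *
      (Equiv.swap 0 ((k : ℤ) + 1) * Equiv.swap (n : ℤ) ((n : ℤ) + k + 1)) := by
  have h1 : ∀ c : Letter, wordElt [c] = FreeGroup.of c := fun c => by simp [wordElt]
  have ha : testHom k (FreeGroup.of a) = Equiv.swap 0 ((k : ℤ) + 1) := by simp [testHom]
  have ht : testHom k (FreeGroup.of t) = Equiv.addRight 1 := by simp [testHom]
  have hT : testHom k (FreeGroup.of T) = (Equiv.addRight 1)⁻¹ := by simp [testHom]
  have hpow : ∀ (n : ℕ) (z : ℤ), ((Equiv.addRight (1 : ℤ)) ^ n : Equiv.Perm ℤ) z = z + n := by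
    intro n
    induction n with
    | zero => intro z; simp
    | succ n ih =>
      intro z
      rw [pow_succ, Equiv.Perm.mul_apply, ih]
      simp only [Equiv.coe_addRight]
      push_cast
      ring
  have hconj : (Equiv.addRight (1 : ℤ)) ^ n * Equiv.swap 0 ((k : ℤ) + 1) *
      ((Equiv.addRight (1 : ℤ))⁻¹) ^ n = Equiv.swap (n : ℤ) ((n : ℤ) + k + 1) := by
    rw [Equiv.mul_swap_eq_swap_mul, hpow, hpow, inv_pow, mul_assoc, mul_inv_cancel, mul_one]
    congr 1
    · ring
    · ring
  simp only [lampWord, wordElt_append, h1, wordElt_replicate, map_mul, map_pow, ha, ht, hT]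
  rw [← hconj]
  simp only [mul_assoc]

theorem testHom_small (k n : ℕ) (hn : n ≤ k) : testHom k (wordElt (lampWord n)) = 1 := by
  rw [testHom_lampWord]
  rcases Nat.eq_zero_or_pos n with rfl | hpos
  · have e : ((0 : ℕ) : ℤ) + k + 1 = (k : ℤ) + 1 := by simp
    rw [e]
    have : ((0 : ℕ) : ℤ) = 0 := rfl
    rw [this, Equiv.swap_mul_self]
    simp
  · have hc : Equiv.swap 0 ((k : ℤ) + 1) * Equiv.swap (n : ℤ) ((n : ℤ) + k + 1) =
        Equiv.swap (n : ℤ) ((n : ℤ) + k + 1) * Equiv.swap 0 ((k : ℤ) + 1) := by
      rw [Equiv.mul_swap_eq_swap_mul]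
      congr 2
      · apply Equiv.swap_apply_of_ne_of_ne
        · omega
        · omega
      · apply Equiv.swap_apply_of_ne_of_ne
        · omega
        · omega
    rw [mul_assoc]
    conv_lhs =>
      arg 2
      rw [hc, ← mul_assoc, Equiv.swap_mul_self, one_mul]
    rw [Equiv.swap_mul_self]

theorem testHom_large (k : ℕ) : testHom k (wordElt (lampWord (k + 1))) ≠ 1 := by
  rw [testHom_lampWord]
  intro h
  have h0 := congrArg (fun f : Equiv.Perm ℤ => f 0) h
  simp only [Equiv.Perm.mul_apply, Equiv.Perm.one_apply] at h0
  have e1 : Equiv.swap (((k + 1 : ℕ) : ℤ)) ((((k + 1 : ℕ) : ℤ)) + k + 1) 0 = 0 := by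
    apply Equiv.swap_apply_of_ne_of_ne
    · push_cast; omega
    · push_cast; omega
  rw [e1, Equiv.swap_apply_left] at h0
  have e2 : ((k : ℤ) + 1) = (((k + 1 : ℕ) : ℤ)) := by push_cast; rfl
  have e3 : Equiv.swap (((k + 1 : ℕ) : ℤ)) ((((k + 1 : ℕ) : ℤ)) + k + 1) ((k : ℤ) + 1) =
      (((k + 1 : ℕ) : ℤ)) + k + 1 := by
    rw [e2, Equiv.swap_apply_left]
  rw [e3] at h0
  rw [Equiv.swap_apply_of_ne_of_ne (by push_cast; omega) (by push_cast; omega)] at h0
  push_cast at h0
  omega

theorem testHom_aa (k : ℕ) : testHom k (wordElt [a, a]) = 1 := by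
  simp [testHom, wordElt]

theorem testHom_tT (k : ℕ) : testHom k (wordElt [t, T]) = 1 := by
  have : wordElt [t, T] = FreeGroup.of t * FreeGroup.of T := by simp [wordElt]
  rw [this, map_mul]
  have ht : testHom k (FreeGroup.of t) = Equiv.addRight 1 := by simp only [testHom, FreeGroup.lift_apply_of]
  have hT : testHom k (FreeGroup.of T) = (Equiv.addRight 1)⁻¹ := by simp only [testHom, FreeGroup.lift_apply_of]
  rw [ht, hT, mul_inv_cancel]

theorem not_finitelyPresented :
    ¬ Group.IsFinitelyPresented (PresentedGroup (relators lampLanguage)) := by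
  intro h
  have := finite_Letter
  obtain ⟨R₀, h0, h0f, h0c⟩ := finitely_many_suffice _ h
  -- bound the exponents that occur
  have hb : ∃ k : ℕ, ∀ x ∈ R₀, x = wordElt [a, a] ∨ x = wordElt [t, T] ∨
      ∃ n ≤ k, x = wordElt (lampWord n) := by
    clear h0c
    induction R₀, h0f using Set.Finite.induction_on with
    | empty => exact ⟨0, by simp⟩
    | insert _ _ ih =>
      rename_i x s _ _
      obtain ⟨k, hk⟩ := ih (fun y hy => h0 (Set.mem_insert_of_mem _ hy))
      obtain ⟨w, hw, hxw⟩ := h0 (Set.mem_insert x s)
      rcases hw with rfl | rfl | ⟨n, rfl⟩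
      · refine ⟨k, ?_⟩
        intro y hy
        rcases Set.mem_insert_iff.mp hy with rfl | hy
        · exact Or.inl hxw
        · exact hk y hy
      · refine ⟨k, ?_⟩
        intro y hy
        rcases Set.mem_insert_iff.mp hy with rfl | hy
        · exact Or.inr (Or.inl hxw)
        · exact hk y hy
      · refine ⟨max k n, ?_⟩
        intro y hy
        rcases Set.mem_insert_iff.mp hy with rfl | hy
        · exact Or.inr (Or.inr ⟨n, le_max_right _ _, hxw⟩)
        · rcases hk y hy with h | h | ⟨m, hm, h⟩
          · exact Or.inl h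
          · exact Or.inr (Or.inl h)
          · exact Or.inr (Or.inr ⟨m, hm.trans (le_max_left _ _), h⟩)
  obtain ⟨k, hk⟩ := hb
  have hker : Subgroup.normalClosure R₀ ≤ (testHom k).ker := by
    apply Subgroup.normalClosure_le_normal
    intro x hx
    change testHom k x = 1
    rcases hk x hx with rfl | rfl | ⟨n, hn, rfl⟩
    · exact testHom_aa k
    · exact testHom_tT k
    · exact testHom_small k n hn
  have hmem : wordElt (lampWord (k + 1)) ∈ Subgroup.normalClosure R₀ := by
    rw [h0c]
    exact Subgroup.subset_normalClosure ⟨_, Or.inr (Or.inr ⟨k + 1, rfl⟩), rfl⟩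
  exact testHom_large k (hker hmem)

/-- There is a finitely generated group that is a nested stack group and not a context-free
group. -/
theorem result : ∃ (G : Type) (_ : Group G),
    Group.FG G ∧ IsNestedStackGroup G ∧ ¬ IsContextFreeGroup G := by
  refine ⟨PresentedGroup (relators lampLanguage), inferInstance, ?_, ?_, ?_⟩
  · have := finite_Letter
    exact Group.fg_of_surjective (PresentedGroup.mk_surjective _)
  · exact ⟨Letter, finite_Letter, lampLanguage, lamp_isIndexed, ⟨MulEquiv.refl _⟩⟩
  · rintro ⟨Δ, hΔ, L, hL, ⟨e⟩⟩
    have h1 := finitelyPresented_of_contextFree L hL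
    exact not_finitelyPresented (Group.IsFinitelyPresented.equiv e.symm)

end Pool.Agent.Results.MP_c0d803_al.IndexedNotContextFree
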